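import Mathlib

/-! Analysis behind the local-to-global question for embeddings into spaces with the
Radon-Nikodym property: fundamental theorem of calculus for Lipschitz curves, and continuity
of translations in `L^1` for vector valued functions. -/

namespace Pool.Agent.Q89.RN

open MeasureTheory Filter Topology Set
open scoped NNReal

section FTC

variable {V : Type*} [NormedAddCommGroup V] [NormedSpace ℝ V] [CompleteSpace V]

theorem intervalIntegrable_deriv {f : ℝ → V} {K : ℝ≥0} (hf : LipschitzWith K f) (a b : ℝ) :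
    IntervalIntegrable (deriv f) volume a b := by
  have hm : AEStronglyMeasurable (deriv f) volume :=
    (stronglyMeasurable_deriv f).aestronglyMeasurable
  rw [intervalIntegrable_iff]
  refine Measure.integrableOn_of_bounded (M := (K : ℝ)) ?_ hm ?_
  · simp [uIoc]
  · exact Eventually.of_forall fun x => norm_deriv_le_of_lipschitz hf

theorem ftc {f : ℝ → V} {K : ℝ≥0} (hf : LipschitzWith K f)
    (hd : ∀ᵐ t, DifferentiableAt ℝ f t) (a b : ℝ) :
    ∫ t in a..b, deriv f t = f b - f a := by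
  have hI := intervalIntegrable_deriv hf a b
  refine (SeparatingDual.eq_iff_forall_dual_eq (R := ℝ)).2 ?_
  intro l
  have h1 : l (∫ t in a..b, deriv f t) = ∫ t in a..b, l (deriv f t) :=
    (l.intervalIntegral_comp_comm hI).symm
  have h2 : (∫ t in a..b, l (deriv f t)) = ∫ t in a..b, deriv (fun s => l (f s)) t := by
    refine intervalIntegral.integral_congr_ae ?_
    filter_upwards [hd] with t ht _
    exact ((l.hasFDerivAt.comp_hasDerivAt t ht.hasDerivAt).deriv).symm
  have h3 : LipschitzWith (‖l‖₊ * K) (fun s => l (f s)) := l.lipschitz.comp hf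
  have h4 := (h3.lipschitzOnWith (s := uIcc a b)).absolutelyContinuousOnInterval.integral_deriv_eq_sub
  rw [h1, h2, h4, map_sub]

end FTC

section Translation

variable {V : Type*} [NormedAddCommGroup V] [NormedSpace ℝ V]
variable {G : Type*} [AddGroup G] [TopologicalSpace G] [IsTopologicalAddGroup G]
  [SecondCountableTopology G] [TopologicalSpace.PseudoMetrizableSpace G]
  [MeasurableSpace G] [BorelSpace G]

/-- Continuity of translations in the first variable, in `L^1` of a product. -/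
theorem translation (μ : Measure G) [IsFiniteMeasure μ] [μ.IsAddRightInvariant]
    (ρ : Measure ℝ) [IsFiniteMeasure ρ] {F : G × ℝ → V} (hF : Integrable F (μ.prod ρ))
    {e : ℕ → G} (he : Tendsto e atTop (𝓝 0)) :
    Tendsto (fun i => ∫ p, ‖F p - F (p.1 + e i, p.2)‖ ∂(μ.prod ρ)) atTop (𝓝 0) := by
  have hmp : ∀ g : G, MeasurePreserving (fun p : G × ℝ => (p.1 + g, p.2)) (μ.prod ρ) (μ.prod ρ) :=
    fun g => (measurePreserving_add_right μ g).prod (MeasurePreserving.id ρ)
  rw [Metric.tendsto_atTop]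
  intro ε hε
  obtain ⟨g, hg, hgi⟩ := hF.exists_boundedContinuous_integral_sub_le (ε := ε / 4) (by positivity)
  have hlim : Tendsto (fun i => ∫ p : G × ℝ, ‖g p - g (p.1 + e i, p.2)‖ ∂(μ.prod ρ)) atTop
      (𝓝 (∫ p : G × ℝ, (0 : ℝ) ∂(μ.prod ρ))) := by
    refine tendsto_integral_of_dominated_convergence (fun _ => 2 * ‖g‖) ?_ ?_ ?_ ?_
    · intro i
      refine Continuous.aestronglyMeasurable ?_
      fun_prop
    · exact integrable_const _
    · intro i
      refine Eventually.of_forall fun p => ?_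
      rw [norm_norm]
      calc ‖g p - g (p.1 + e i, p.2)‖ ≤ ‖g p‖ + ‖g (p.1 + e i, p.2)‖ := norm_sub_le _ _
        _ ≤ ‖g‖ + ‖g‖ := add_le_add (g.norm_coe_le_norm _) (g.norm_coe_le_norm _)
        _ = 2 * ‖g‖ := by ring
    · refine Eventually.of_forall fun p => ?_
      have h1 : Tendsto (fun i => (p.1 + e i, p.2)) atTop (𝓝 p) := by
        have : Tendsto (fun i => p.1 + e i) atTop (𝓝 (p.1 + 0)) := tendsto_const_nhds.add he
        rw [add_zero] at this
        exact this.prodMk_nhds tendsto_const_nhds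
      have h2 : Tendsto (fun i => g p - g (p.1 + e i, p.2)) atTop (𝓝 (g p - g p)) :=
        tendsto_const_nhds.sub ((g.continuous.tendsto p).comp h1)
      rw [sub_self] at h2
      simpa using h2.norm
  rw [integral_zero, Metric.tendsto_atTop] at hlim
  obtain ⟨N, hN⟩ := hlim (ε / 4) (by positivity)
  refine ⟨N, fun i hi => ?_⟩
  have hNi := hN i hi
  rw [Real.dist_eq, sub_zero] at hNi ⊢
  have hNi' := (le_abs_self _).trans_lt hNi
  rw [abs_of_nonneg (integral_nonneg fun _ => norm_nonneg _)]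
  have hFg : Integrable (fun p => ‖F p - g p‖) (μ.prod ρ) := (hF.sub hgi).norm
  have hFg' : Integrable (fun p : G × ℝ => ‖F (p.1 + e i, p.2) - g (p.1 + e i, p.2)‖)
      (μ.prod ρ) := (hmp (e i)).integrable_comp_of_integrable hFg
  have hgg : Integrable (fun p : G × ℝ => ‖g p - g (p.1 + e i, p.2)‖) (μ.prod ρ) :=
    (hgi.sub ((hmp (e i)).integrable_comp_of_integrable hgi)).norm
  have hFF : Integrable (fun p : G × ℝ => ‖F p - F (p.1 + e i, p.2)‖) (μ.prod ρ) :=
    (hF.sub ((hmp (e i)).integrable_comp_of_integrable hF)).norm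
  have hinv : ∫ p : G × ℝ, ‖F (p.1 + e i, p.2) - g (p.1 + e i, p.2)‖ ∂(μ.prod ρ)
      = ∫ p, ‖F p - g p‖ ∂(μ.prod ρ) := by
    have hm := hFg.aestronglyMeasurable
    rw [← (hmp (e i)).map_eq] at hm
    have := integral_map (hmp (e i)).measurable.aemeasurable hm
    rw [(hmp (e i)).map_eq] at this
    exact this.symm
  have hle : ∫ p, ‖F p - F (p.1 + e i, p.2)‖ ∂(μ.prod ρ) ≤
      ∫ p : G × ℝ, (‖F p - g p‖ + ‖g p - g (p.1 + e i, p.2)‖ +
        ‖F (p.1 + e i, p.2) - g (p.1 + e i, p.2)‖) ∂(μ.prod ρ) := by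
    refine integral_mono hFF ((hFg.add hgg).add hFg') fun p => ?_
    have h : F p - F (p.1 + e i, p.2) = (F p - g p) + (g p - g (p.1 + e i, p.2)) -
        (F (p.1 + e i, p.2) - g (p.1 + e i, p.2)) := by abel
    calc ‖F p - F (p.1 + e i, p.2)‖ ≤ ‖(F p - g p) + (g p - g (p.1 + e i, p.2))‖ +
        ‖F (p.1 + e i, p.2) - g (p.1 + e i, p.2)‖ := by rw [h]; exact norm_sub_le _ _
      _ ≤ _ := by gcongr; exact norm_add_le _ _
  have hsum : ∫ p : G × ℝ, (‖F p - g p‖ + ‖g p - g (p.1 + e i, p.2)‖ +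
        ‖F (p.1 + e i, p.2) - g (p.1 + e i, p.2)‖) ∂(μ.prod ρ) =
      ∫ p, ‖F p - g p‖ ∂(μ.prod ρ) + ∫ p : G × ℝ, ‖g p - g (p.1 + e i, p.2)‖ ∂(μ.prod ρ) +
        ∫ p : G × ℝ, ‖F (p.1 + e i, p.2) - g (p.1 + e i, p.2)‖ ∂(μ.prod ρ) := by
    have h1 := integral_add (hFg.add hgg) hFg'
    have h2 := integral_add hFg hgg
    simp only [Pi.add_apply] at h1
    rw [h1, h2]
  rw [hinv] at hsum
  linarith

end Translation

end Pool.Agent.Q89.RN
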