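import Mathlib
import Pool.Agent.Q89.RN.A

/-! The wormhole spaces `K n`: the line times the space of binary sequences, with a metric in
which changing the digit `i` costs about the distance of the height to the multiples of
`4^(-i-1)`, but at least `4^(-i-1) / (n+2)`. -/

namespace Pool.Agent.Q89.RN

open MeasureTheory Filter Topology Set
open scoped NNReal BoundedContinuousFunction

/-- the scales -/
noncomputable def sc (i : ℕ) : ℝ := (1 / 4 : ℝ) ^ (i + 1)

theorem sc_pos (i : ℕ) : 0 < sc i := by unfold sc; positivity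

theorem sc_anti {i j : ℕ} (h : i ≤ j) : sc j ≤ sc i := by
  unfold sc
  exact pow_le_pow_of_le_one (by norm_num) (by norm_num) (by omega)

theorem sc_le_one (i : ℕ) : sc i ≤ 1 := by
  unfold sc
  exact pow_le_one₀ (by norm_num) (by norm_num)

theorem sc_tendsto : Tendsto sc atTop (𝓝 0) := by
  have h := tendsto_pow_atTop_nhds_zero_of_lt_one (r := (1 / 4 : ℝ)) (by norm_num) (by norm_num)
  exact (tendsto_add_atTop_iff_nat 1).2 h

theorem summable_sc : Summable sc := by
  have h := summable_geometric_of_lt_one (r := (1 / 4 : ℝ)) (by norm_num) (by norm_num)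
  exact (summable_nat_add_iff 1).2 h

/-- distance to the nearest multiple of `sc i` -/
noncomputable def hh (i : ℕ) (t : ℝ) : ℝ := sc i * |t / sc i - round (t / sc i)|

theorem hh_nonneg (i : ℕ) (t : ℝ) : 0 ≤ hh i t := mul_nonneg (sc_pos i).le (abs_nonneg _)

theorem hh_le (i : ℕ) (t : ℝ) : hh i t ≤ sc i / 2 := by
  have h := abs_sub_round (t / sc i)
  have := mul_le_mul_of_nonneg_left h (sc_pos i).le
  unfold hh
  linarith

theorem hh_mult (i : ℕ) (k : ℕ) : hh i (k * sc i) = 0 := by
  unfold hh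
  rw [mul_div_assoc, div_self (sc_pos i).ne', mul_one, round_natCast]
  simp

theorem hh_half (i : ℕ) (k : ℕ) : hh i ((k + 1 / 2) * sc i) = sc i / 2 := by
  unfold hh
  rw [mul_div_assoc, div_self (sc_pos i).ne', mul_one]
  have h : round ((k : ℝ) + 1 / 2) = (k : ℤ) + 1 := by
    rw [round_eq, show (k : ℝ) + 1 / 2 + 1 / 2 = ((k + 1 : ℕ) : ℝ) by push_cast; ring]
    rw [Int.floor_natCast]
    push_cast
    rfl
  rw [h]
  push_cast
  rw [show (k : ℝ) + 1 / 2 - (k + 1) = -(1 / 2) by ring, abs_neg, abs_of_pos (by norm_num)]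
  ring

theorem hh_lip (i : ℕ) (s t : ℝ) : hh i s ≤ hh i t + |s - t| := by
  unfold hh
  have h := round_le (s / sc i) (round (t / sc i))
  have h2 : |s / sc i - round (t / sc i)| ≤ |s / sc i - t / sc i| + |t / sc i - round (t / sc i)| :=
    abs_sub_le _ _ _
  have h3 : |s / sc i - t / sc i| = |s - t| / sc i := by
    rw [← sub_div, abs_div, abs_of_pos (sc_pos i)]
  have h4 : sc i * (|s - t| / sc i) = |s - t| := mul_div_cancel₀ _ (sc_pos i).ne'
  have h5 := mul_le_mul_of_nonneg_left (h.trans h2) (sc_pos i).le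
  rw [h3, mul_add, h4] at h5
  linarith

/-- the half cost of changing digit `i` at height `t` -/
noncomputable def uu (n i : ℕ) (t : ℝ) : ℝ := max (hh i t) (sc i / (n + 2))

theorem uu_nonneg (n i : ℕ) (t : ℝ) : 0 ≤ uu n i t := (hh_nonneg i t).trans (le_max_left _ _)

theorem uu_lower (n i : ℕ) (t : ℝ) : sc i / (n + 2) ≤ uu n i t := le_max_right _ _

theorem uu_le (n i : ℕ) (t : ℝ) : uu n i t ≤ sc i / 2 := by
  refine max_le (hh_le i t) ?_
  have h := (sc_pos i).le
  have h2 : (2 : ℝ) ≤ (n : ℝ) + 2 := by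
    have : (0 : ℝ) ≤ n := Nat.cast_nonneg n
    linarith
  exact div_le_div_of_nonneg_left h (by norm_num) h2

theorem uu_lip (n i : ℕ) (s t : ℝ) : |uu n i s - uu n i t| ≤ |s - t| := by
  have key : ∀ a b : ℝ, uu n i a ≤ uu n i b + |a - b| := by
    intro a b
    refine max_le ?_ ?_
    · have := hh_lip i a b
      have h2 : hh i b ≤ uu n i b := le_max_left _ _
      linarith
    · have := uu_lower n i b
      have h2 := abs_nonneg (a - b)
      linarith
  have h1 := key s t
  have h2 := key t s
  rw [abs_sub_comm t s] at h2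
  rw [abs_le]
  constructor <;> linarith

/-- sign of a digit -/
noncomputable def sg (a : ZMod 2) : ℝ := if a = 0 then 1 else -1

theorem abs_sg (a : ZMod 2) : |sg a| = 1 := by
  unfold sg
  split_ifs <;> simp

theorem zmod_cases : ∀ a b : ZMod 2, a ≠ b → (a = 0 ∧ b ≠ 0) ∨ (a ≠ 0 ∧ b = 0) := by decide

theorem sg_ne {a b : ZMod 2} (h : a ≠ b) : sg b = -sg a := by
  unfold sg
  rcases zmod_cases a b h with ⟨h1, h2⟩ | ⟨h1, h2⟩
  · rw [if_pos h1, if_neg h2]
  · rw [if_neg h1, if_pos h2, neg_neg]

/-- the wormhole space, as a set: a height and a sequence of digits -/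
@[ext] structure K (n : ℕ) where
  /-- height -/
  ht : ℝ
  /-- digits -/
  dg : ℕ → ZMod 2

/-- the digit coordinates -/
noncomputable def digits (n : ℕ) (p : K n) : ℕ →ᵇ ℝ :=
  BoundedContinuousFunction.ofNormedAddCommGroupDiscrete (fun i => sg (p.dg i) * uu n i p.ht) 1 (by
    intro i
    rw [Real.norm_eq_abs, abs_mul, abs_sg, one_mul, abs_of_nonneg (uu_nonneg n i p.ht)]
    have := uu_le n i p.ht
    have h2 := sc_le_one i
    have h3 := sc_pos i
    linarith)

/-- the coordinates on the wormhole space -/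
noncomputable def Phi (n : ℕ) (p : K n) : ℝ × (ℕ →ᵇ ℝ) := (p.ht, digits n p)

theorem digits_apply (n : ℕ) (p : K n) (i : ℕ) :
    digits n p i = sg (p.dg i) * uu n i p.ht := rfl

theorem Phi_injective (n : ℕ) : Function.Injective (Phi n) := by
  intro p q h
  have h1 : p.ht = q.ht := congrArg Prod.fst h
  have h2 : digits n p = digits n q := congrArg Prod.snd h
  refine K.ext h1 (funext fun i => ?_)
  by_contra hne
  have h3 : digits n p i = digits n q i := by rw [h2]
  rw [digits_apply, digits_apply, h1, sg_ne hne] at h3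
  have hpos : 0 < uu n i q.ht :=
    lt_of_lt_of_le (div_pos (sc_pos i) (by positivity)) (uu_lower n i q.ht)
  have h4 : sg (p.dg i) * uu n i q.ht = 0 := by linarith
  rcases mul_eq_zero.1 h4 with h5 | h5
  · have := abs_sg (p.dg i)
    rw [h5] at this
    simp at this
  · exact hpos.ne' h5

noncomputable instance instMetricSpaceK (n : ℕ) : MetricSpace (K n) :=
  MetricSpace.induced (Phi n) (Phi_injective n) inferInstance

theorem dist_def (n : ℕ) (p q : K n) :
    dist p q = max |p.ht - q.ht| (dist (digits n p) (digits n q)) := rfl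

theorem ht_le_dist (n : ℕ) (p q : K n) : |p.ht - q.ht| ≤ dist p q := by
  rw [dist_def]; exact le_max_left _ _

theorem digit_le_dist (n : ℕ) (p q : K n) (i : ℕ) (h : p.dg i ≠ q.dg i) :
    uu n i p.ht + uu n i q.ht ≤ dist p q := by
  have h1 : dist (digits n p i) (digits n q i) ≤ dist (digits n p) (digits n q) :=
    BoundedContinuousFunction.dist_coe_le_dist i
  have h2 : dist (digits n p i) (digits n q i) = uu n i p.ht + uu n i q.ht := by
    rw [digits_apply, digits_apply, sg_ne h, Real.dist_eq]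
    rw [show sg (p.dg i) * uu n i p.ht - -sg (p.dg i) * uu n i q.ht =
      sg (p.dg i) * (uu n i p.ht + uu n i q.ht) by ring, abs_mul, abs_sg, one_mul]
    exact abs_of_nonneg (add_nonneg (uu_nonneg _ _ _) (uu_nonneg _ _ _))
  rw [dist_def]
  rw [h2] at h1
  exact h1.trans (le_max_right _ _)

/-- A bound for the distance digit by digit. -/
theorem dist_le_of (n : ℕ) (p q : K n) (B : ℝ) (h0 : |p.ht - q.ht| ≤ B)
    (h : ∀ i, p.dg i ≠ q.dg i → uu n i p.ht + uu n i q.ht ≤ B) : dist p q ≤ B := by
  rw [dist_def]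
  refine max_le h0 ((BoundedContinuousFunction.dist_le ((abs_nonneg _).trans h0)).2 fun i => ?_)
  rw [digits_apply, digits_apply, Real.dist_eq]
  by_cases hi : p.dg i = q.dg i
  · rw [hi, ← mul_sub, abs_mul, abs_sg, one_mul]
    exact (uu_lip n i p.ht q.ht).trans h0
  · rw [sg_ne hi]
    rw [show sg (p.dg i) * uu n i p.ht - -sg (p.dg i) * uu n i q.ht =
      sg (p.dg i) * (uu n i p.ht + uu n i q.ht) by ring, abs_mul, abs_sg, one_mul]
    rw [abs_of_nonneg (add_nonneg (uu_nonneg _ _ _) (uu_nonneg _ _ _))]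
    exact h i hi

theorem dist_le_sc (n : ℕ) (p q : K n) (m : ℕ) (h : ∀ i < m, p.dg i = q.dg i) :
    dist p q ≤ max |p.ht - q.ht| (sc m) := by
  refine dist_le_of n p q _ (le_max_left _ _) fun i hi => ?_
  have him : m ≤ i := by
    by_contra hlt
    exact hi (h i (not_le.1 hlt))
  refine le_trans ?_ ((sc_anti him).trans (le_max_right _ _))
  have h1 := uu_le n i p.ht
  have h2 := uu_le n i q.ht
  linarith

theorem dist_same_dg (n : ℕ) (s t : ℝ) (c : ℕ → ZMod 2) :
    dist (K.mk s c : K n) (K.mk t c) ≤ |s - t| :=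
  dist_le_of n _ _ _ le_rfl fun _ hi => absurd rfl hi

/-- the element of the digit group with a single digit `1` -/
noncomputable def ee (i : ℕ) : ℕ → ZMod 2 := Pi.single i 1

theorem dist_flip (n : ℕ) (t : ℝ) (c : ℕ → ZMod 2) (i : ℕ) :
    dist (K.mk t c : K n) (K.mk t (c + ee i)) = 2 * uu n i t := by
  apply le_antisymm
  · refine dist_le_of n _ _ _ ?_ fun j hj => ?_
    · simp only [sub_self, abs_zero]
      exact mul_nonneg (by norm_num) (uu_nonneg n i t)
    · have hji : j = i := by
        by_contra hne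
        apply hj
        change c j = c j + (Pi.single i 1 : ℕ → ZMod 2) j
        rw [Pi.single_eq_of_ne hne, add_zero]
      subst hji
      change uu n j t + uu n j t ≤ _
      linarith
  · have h := digit_le_dist n (K.mk t c) (K.mk t (c + ee i)) i (by
      change c i ≠ c i + (Pi.single i 1 : ℕ → ZMod 2) i
      rw [Pi.single_eq_same]
      intro h
      have h2 := left_eq_add.1 h
      exact absurd h2 (by decide))
    change uu n i t + uu n i t ≤ _ at h
    linarith

theorem ee_tendsto : Tendsto ee atTop (𝓝 0) := by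
  rw [tendsto_pi_nhds]
  intro j
  refine tendsto_const_nhds.congr' ?_
  filter_upwards [eventually_gt_atTop j] with i hi
  change (0 : ℕ → ZMod 2) j = (Pi.single i 1 : ℕ → ZMod 2) j
  rw [Pi.single_eq_of_ne (by omega)]
  rfl

/-- The map from the product space to the wormhole space is continuous. -/
theorem continuous_toK (n : ℕ) :
    Continuous (fun p : (ℕ → ZMod 2) × ℝ => (K.mk p.2 p.1 : K n)) := by
  rw [continuous_iff_continuousAt]
  intro p
  rw [ContinuousAt, Metric.tendsto_nhds]
  intro ε hε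
  obtain ⟨m, hm⟩ := (sc_tendsto.eventually (gt_mem_nhds hε)).exists
  have h1 : ∀ᶠ q : (ℕ → ZMod 2) × ℝ in 𝓝 p, ∀ i ∈ Finset.range m, q.1 i = p.1 i := by
    rw [Filter.eventually_all_finset]
    intro i _
    have hc : Continuous fun q : (ℕ → ZMod 2) × ℝ => q.1 i := by fun_prop
    exact hc.continuousAt.eventually (IsOpen.mem_nhds (isOpen_discrete {p.1 i}) rfl)
  have h2 : ∀ᶠ q : (ℕ → ZMod 2) × ℝ in 𝓝 p, |q.2 - p.2| < ε := by
    have hc : Continuous fun q : (ℕ → ZMod 2) × ℝ => |q.2 - p.2| := by fun_prop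
    have := hc.tendsto p
    rw [sub_self, abs_zero] at this
    exact this.eventually (gt_mem_nhds hε)
  filter_upwards [h1, h2] with q hq1 hq2
  refine (dist_le_sc n _ _ m fun i hi => hq1 i (Finset.mem_range.2 hi)).trans_lt ?_
  exact max_lt hq2 hm

instance completeK (n : ℕ) : CompleteSpace (K n) := by
  refine Metric.complete_of_cauchySeq_tendsto fun u hu => ?_
  have hfst : CauchySeq fun k => (u k).ht := by
    rw [Metric.cauchySeq_iff] at hu ⊢
    intro ε hε
    obtain ⟨N, hN⟩ := hu ε hε
    exact ⟨N, fun a ha b hb => (ht_le_dist n _ _).trans_lt (hN a ha b hb)⟩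
  obtain ⟨t, ht⟩ := cauchySeq_tendsto_of_complete hfst
  have hdig : ∀ i, ∃ a : ZMod 2, ∀ᶠ k in atTop, (u k).dg i = a := by
    intro i
    have hpos : 0 < 2 * (sc i / ((n : ℝ) + 2)) := by
      have := sc_pos i
      positivity
    obtain ⟨N, hN⟩ := Metric.cauchySeq_iff.1 hu _ hpos
    refine ⟨(u N).dg i, ?_⟩
    filter_upwards [eventually_ge_atTop N] with k hk
    by_contra hne
    have h1 := digit_le_dist n _ _ i hne
    have h2 := hN k hk N le_rfl
    have h3 := uu_lower n i (u k).ht
    have h4 := uu_lower n i (u N).ht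
    linarith
  choose c hc using hdig
  refine ⟨K.mk t c, ?_⟩
  have h : Tendsto (fun k => (((u k).dg, (u k).ht) : (ℕ → ZMod 2) × ℝ)) atTop (𝓝 (c, t)) := by
    refine Tendsto.prodMk_nhds ?_ ht
    rw [tendsto_pi_nhds]
    intro i
    exact tendsto_const_nhds.congr' ((hc i).mono fun k hk => hk.symm)
  exact ((continuous_toK n).tendsto (c, t)).comp h

end Pool.Agent.Q89.RN
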