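import Mathlib
import Pool.Agent.Q89.RN.B

/-! Every wormhole space `K n` embeds bi-Lipschitz in the plane (with a constant depending on `n`). -/

namespace Pool.Agent.Q89.RN

open MeasureTheory Filter Topology Set
open scoped NNReal BoundedContinuousFunction

/-- the contribution of digit `i` -/
noncomputable def db (c : ℕ → ZMod 2) (i : ℕ) : ℝ := if c i = 0 then 0 else sc i

/-- the Cantor set coordinate -/
noncomputable def bb (c : ℕ → ZMod 2) : ℝ := ∑' i, db c i

theorem summable_db (c : ℕ → ZMod 2) : Summable (db c) := by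
  refine Summable.of_nonneg_of_le (fun i => ?_) (fun i => ?_) summable_sc
  · unfold db; split_ifs
    · exact le_rfl
    · exact (sc_pos i).le
  · unfold db; split_ifs
    · exact (sc_pos i).le
    · exact le_rfl

theorem tail_sc (m : ℕ) : ∑' i, sc (i + (m + 1)) = sc m / 3 := by
  have h : ∀ i, sc (i + (m + 1)) = (1 / 4 : ℝ) ^ i * (sc m / 4) := by
    intro i
    unfold sc
    ring
  simp_rw [h]
  rw [tsum_mul_right, tsum_geometric_of_lt_one (by norm_num) (by norm_num)]
  ring

theorem bb_sub (c c' : ℕ → ZMod 2) (m : ℕ) (h : ∀ i < m, c i = c' i) (hm : c m ≠ c' m) :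
    2 / 3 * sc m ≤ |bb c - bb c'| ∧ |bb c - bb c'| ≤ 4 / 3 * sc m := by
  have hs : Summable fun i => db c i - db c' i := (summable_db c).sub (summable_db c')
  have h1 : bb c - bb c' = ∑' i, (db c i - db c' i) :=
    ((summable_db c).tsum_sub (summable_db c')).symm
  have h2 := hs.sum_add_tsum_nat_add (m + 1)
  have h3 : ∑ i ∈ Finset.range (m + 1), (db c i - db c' i) = db c m - db c' m := by
    rw [Finset.sum_range_succ, Finset.sum_eq_zero, zero_add]
    intro i hi
    have := h i (Finset.mem_range.1 hi)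
    simp only [db, this, sub_self]
  have h4 : |db c m - db c' m| = sc m := by
    unfold db
    rcases zmod_cases _ _ hm with ⟨h1, h2⟩ | ⟨h1, h2⟩
    · rw [if_pos h1, if_neg h2, zero_sub, abs_neg, abs_of_pos (sc_pos m)]
    · rw [if_neg h1, if_pos h2, sub_zero, abs_of_pos (sc_pos m)]
  have hb : ∀ i, |db c i - db c' i| ≤ sc i := by
    intro i
    have := sc_pos i
    unfold db
    split_ifs
    · simp [this.le]
    · rw [zero_sub, abs_neg, abs_of_pos this]
    · rw [sub_zero, abs_of_pos this]
    · simp [this.le]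
  have h5 : |∑' i, (db c (i + (m + 1)) - db c' (i + (m + 1)))| ≤ sc m / 3 := by
    rw [← tail_sc m]
    have hsc : Summable fun i => sc (i + (m + 1)) := (summable_nat_add_iff (m + 1)).2 summable_sc
    have := tsum_of_norm_bounded (f := fun i => db c (i + (m + 1)) - db c' (i + (m + 1)))
      hsc.hasSum (fun i => hb (i + (m + 1)))
    exact this
  rw [h3] at h2
  rw [h1, ← h2]
  have h6 := abs_add_le (db c m - db c' m) (∑' i, (db c (i + (m + 1)) - db c' (i + (m + 1))))
  have h7 := abs_sub_abs_le_abs_sub (db c m - db c' m)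
    (-(∑' i, (db c (i + (m + 1)) - db c' (i + (m + 1)))))
  rw [sub_neg_eq_add, abs_neg] at h7
  rw [h4] at h6 h7
  constructor <;> linarith

/-- the coordinates in the plane -/
noncomputable def plane (t : ℝ) (c : ℕ → ZMod 2) : ℝ × ℝ := (t, bb c)

theorem norm_plane (s t : ℝ) (c c' : ℕ → ZMod 2) :
    ‖plane s c - plane t c'‖ = max |s - t| |bb c - bb c'| := rfl

theorem plane_bounds (n : ℕ) (p q : K n) :
    2 / 3 * dist p q ≤ ‖plane p.ht p.dg - plane q.ht q.dg‖ ∧
      ‖plane p.ht p.dg - plane q.ht q.dg‖ ≤ ((n : ℝ) + 2) * dist p q := by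
  have hn : (0 : ℝ) ≤ n := Nat.cast_nonneg n
  have hd : 0 ≤ dist p q := dist_nonneg
  have hfst := ht_le_dist n p q
  have hfst2 : |p.ht - q.ht| ≤ ((n : ℝ) + 2) * dist p q := by nlinarith
  rw [norm_plane]
  by_cases h : p.dg = q.dg
  · have h1 : dist p q ≤ |p.ht - q.ht| := dist_le_of n _ _ _ le_rfl fun i hi => absurd (by rw [h]) hi
    rw [h, sub_self, abs_zero, max_eq_left (abs_nonneg _)]
    have := abs_nonneg (p.ht - q.ht)
    constructor <;> linarith
  · have hex : ∃ i, p.dg i ≠ q.dg i := by
      by_contra hcon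
      push Not at hcon
      exact h (funext hcon)
    classical
    obtain ⟨m, hm, hmin⟩ : ∃ m, p.dg m ≠ q.dg m ∧ ∀ i < m, p.dg i = q.dg i :=
      ⟨Nat.find hex, Nat.find_spec hex, fun i hi => not_not.1 (Nat.find_min hex hi)⟩
    obtain ⟨h1, h2⟩ := bb_sub p.dg q.dg m hmin hm
    have h3 := dist_le_sc n p q m hmin
    have h4 := digit_le_dist n p q m hm
    have h5 := uu_lower n m p.ht
    have h6 := uu_lower n m q.ht
    have h7 := sc_pos m
    have h8 : 2 * sc m ≤ ((n : ℝ) + 2) * dist p q := by
      have h9 : 2 * (sc m / ((n : ℝ) + 2)) ≤ dist p q := by linarith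
      have h10 : ((n : ℝ) + 2) * (2 * (sc m / ((n : ℝ) + 2))) = 2 * sc m := by
        field_simp
      rw [← h10]
      exact mul_le_mul_of_nonneg_left h9 (by linarith)
    constructor
    · rcases le_total |p.ht - q.ht| (sc m) with h9 | h9
      · rw [max_eq_right h9] at h3
        refine le_trans ?_ (le_max_right _ _)
        linarith
      · rw [max_eq_left h9] at h3
        refine le_trans ?_ (le_max_left _ _)
        linarith
    · exact max_le hfst2 (by linarith)

end Pool.Agent.Q89.RN
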