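import Mathlib
import Pool.Agent.Q89.RN.C

/-! Bi-Lipschitz maps of the wormhole space `K n` to spaces with the Radon-Nikodym property have
distortion at least `(n+2)/2`. -/

namespace Pool.Agent.Q89.RN

open MeasureTheory Filter Topology Set
open scoped NNReal BoundedContinuousFunction

section

variable {V : Type*} [NormedAddCommGroup V] [NormedSpace ℝ V] [CompleteSpace V]

/-- the vertical curve of a map -/
noncomputable def curve {n : ℕ} (f : K n → V) (c : ℕ → ZMod 2) (t : ℝ) : V := f (K.mk t c)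

/-- the vertical derivative of a map -/
noncomputable def vder {n : ℕ} (f : K n → V) (p : (ℕ → ZMod 2) × ℝ) : V := deriv (curve f p.1) p.2

theorem curve_lip {n : ℕ} {f : K n → V} {C : ℝ≥0} (hf : ∀ p q, ‖f p - f q‖ ≤ C * dist p q)
    (c : ℕ → ZMod 2) : LipschitzWith C (curve f c) := by
  refine LipschitzWith.of_dist_le_mul fun s t => ?_
  rw [dist_eq_norm, Real.dist_eq]
  exact (hf _ _).trans (mul_le_mul_of_nonneg_left (dist_same_dg n s t c) C.coe_nonneg)

theorem curve_continuous {n : ℕ} {f : K n → V} {C : ℝ≥0}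
    (hf : ∀ p q, ‖f p - f q‖ ≤ C * dist p q) : Continuous (curve f).uncurry := by
  have h : LipschitzWith C f := LipschitzWith.of_dist_le_mul fun p q => by
    rw [dist_eq_norm]; exact hf p q
  exact h.continuous.comp (continuous_toK n)

theorem vder_stronglyMeasurable {n : ℕ} {f : K n → V} {C : ℝ≥0}
    (hf : ∀ p q, ‖f p - f q‖ ≤ C * dist p q) : StronglyMeasurable (vder f) :=
  stronglyMeasurable_deriv_with_param (curve_continuous hf)

theorem vder_bound {n : ℕ} {f : K n → V} {C : ℝ≥0}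
    (hf : ∀ p q, ‖f p - f q‖ ≤ C * dist p q) (p : (ℕ → ZMod 2) × ℝ) : ‖vder f p‖ ≤ C :=
  norm_deriv_le_of_lipschitz (curve_lip hf p.1)

/-- The inequality on one cell. -/
theorem cell {n : ℕ} {f : K n → V} {C : ℝ≥0} {c₀ : ℝ} (hc₀ : 0 ≤ c₀)
    (hf : ∀ p q, ‖f p - f q‖ ≤ C * dist p q)
    (hg : ∀ p q, c₀ * dist p q ≤ ‖f p - f q‖)
    (hd : ∀ c, ∀ᵐ t, DifferentiableAt ℝ (curve f c) t) (c : ℕ → ZMod 2) (i k : ℕ) :
    (c₀ - 2 * C / (n + 2)) * sc i ≤
      ∫ t in ((k : ℕ) : ℝ) * sc i..((k + 1 : ℕ) : ℝ) * sc i,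
        ‖vder f (c, t) - vder f (c + ee i, t)‖ := by
  set a : ℝ := (k : ℝ) * sc i with ha
  set m : ℝ := ((k : ℝ) + 1 / 2) * sc i with hm
  set b : ℝ := ((k + 1 : ℕ) : ℝ) * sc i with hb
  have hs := sc_pos i
  have hn : (0 : ℝ) ≤ n := Nat.cast_nonneg n
  have ham : a ≤ m := by rw [ha, hm]; nlinarith
  have hmb : m ≤ b := by rw [hm, hb]; push_cast; nlinarith
  have hI : ∀ c' : ℕ → ZMod 2, ∀ x y, IntervalIntegrable (fun t => vder f (c', t)) volume x y :=
    fun c' x y => intervalIntegrable_deriv (curve_lip hf c') x y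
  have hftc : ∀ c' : ℕ → ZMod 2, ∫ t in a..m, vder f (c', t) = curve f c' m - curve f c' a :=
    fun c' => ftc (curve_lip hf c') (hd c') a m
  have h1 : c₀ * sc i ≤ ‖curve f c m - curve f (c + ee i) m‖ := by
    refine le_trans ?_ (hg _ _)
    rw [dist_flip]
    refine mul_le_mul_of_nonneg_left ?_ hc₀
    have h2 : hh i m ≤ uu n i m := le_max_left _ _
    rw [hm, hh_half, ← hm] at h2
    linarith
  have h2 : ‖curve f c a - curve f (c + ee i) a‖ ≤ C * (2 * (sc i / (n + 2))) := by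
    refine (hf _ _).trans ?_
    rw [dist_flip]
    refine mul_le_mul_of_nonneg_left ?_ C.coe_nonneg
    have h3 : uu n i a = sc i / (n + 2) := by
      unfold uu
      rw [ha, hh_mult]
      exact max_eq_right (by positivity)
    rw [h3]
  have h3 : curve f c m - curve f (c + ee i) m = (curve f c a - curve f (c + ee i) a) +
      ∫ t in a..m, (vder f (c, t) - vder f (c + ee i, t)) := by
    rw [intervalIntegral.integral_sub (hI c a m) (hI (c + ee i) a m), hftc, hftc]
    abel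
  have h4 : ‖∫ t in a..m, (vder f (c, t) - vder f (c + ee i, t))‖ ≤
      ∫ t in a..m, ‖vder f (c, t) - vder f (c + ee i, t)‖ :=
    intervalIntegral.norm_integral_le_integral_norm ham
  have h5 : ∫ t in a..m, ‖vder f (c, t) - vder f (c + ee i, t)‖ ≤
      ∫ t in a..b, ‖vder f (c, t) - vder f (c + ee i, t)‖ := by
    have hN : ∀ x y, IntervalIntegrable (fun t => ‖vder f (c, t) - vder f (c + ee i, t)‖)
        volume x y := fun x y => ((hI c x y).sub (hI (c + ee i) x y)).norm
    rw [← intervalIntegral.integral_add_adjacent_intervals (hN a m) (hN m b)]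
    have : 0 ≤ ∫ t in m..b, ‖vder f (c, t) - vder f (c + ee i, t)‖ :=
      intervalIntegral.integral_nonneg hmb fun _ _ => norm_nonneg _
    linarith
  have h6 : ‖curve f c m - curve f (c + ee i) m‖ ≤ ‖curve f c a - curve f (c + ee i) a‖ +
      ‖∫ t in a..m, (vder f (c, t) - vder f (c + ee i, t))‖ := by
    rw [h3]; exact norm_add_le _ _
  have h7 : (c₀ - 2 * C / (n + 2)) * sc i = c₀ * sc i - C * (2 * (sc i / (n + 2))) := by ring
  rw [h7]
  linarith

/-- The inequality on the unit interval. -/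
theorem unit_interval {n : ℕ} {f : K n → V} {C : ℝ≥0} {c₀ : ℝ} (hc₀ : 0 ≤ c₀)
    (hf : ∀ p q, ‖f p - f q‖ ≤ C * dist p q)
    (hg : ∀ p q, c₀ * dist p q ≤ ‖f p - f q‖)
    (hd : ∀ c, ∀ᵐ t, DifferentiableAt ℝ (curve f c) t) (c : ℕ → ZMod 2) (i : ℕ) :
    c₀ - 2 * C / (n + 2) ≤
      ∫ t in (0 : ℝ)..1, ‖vder f (c, t) - vder f (c + ee i, t)‖ := by
  have hI : ∀ c' : ℕ → ZMod 2, ∀ x y, IntervalIntegrable (fun t => vder f (c', t)) volume x y :=
    fun c' x y => intervalIntegrable_deriv (curve_lip hf c') x y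
  have hN : ∀ x y, IntervalIntegrable (fun t => ‖vder f (c, t) - vder f (c + ee i, t)‖)
        volume x y := fun x y => ((hI c x y).sub (hI (c + ee i) x y)).norm
  have hsum := intervalIntegral.sum_integral_adjacent_intervals (n := 4 ^ (i + 1))
    (a := fun k : ℕ => (k : ℝ) * sc i) (μ := volume)
    (f := fun t => ‖vder f (c, t) - vder f (c + ee i, t)‖) (fun k _ => hN _ _)
  have h4 : ((4 ^ (i + 1) : ℕ) : ℝ) * sc i = 1 := by
    unfold sc
    push_cast
    rw [← mul_pow]
    norm_num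
  have h0 : ((0 : ℕ) : ℝ) * sc i = 0 := by simp
  simp only [h4, h0] at hsum
  rw [← hsum]
  have hle : ∑ k ∈ Finset.range (4 ^ (i + 1)), (c₀ - 2 * C / (n + 2)) * sc i ≤
      ∑ k ∈ Finset.range (4 ^ (i + 1)), ∫ t in ((k : ℕ) : ℝ) * sc i..((k + 1 : ℕ) : ℝ) * sc i,
        ‖vder f (c, t) - vder f (c + ee i, t)‖ :=
    Finset.sum_le_sum fun k _ => cell hc₀ hf hg hd c i k
  refine le_trans (le_of_eq ?_) hle
  rw [Finset.sum_const, Finset.card_range, nsmul_eq_mul]
  calc c₀ - 2 * C / (n + 2) = (c₀ - 2 * C / (n + 2)) * (((4 ^ (i + 1) : ℕ) : ℝ) * sc i) := by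
        rw [h4, mul_one]
    _ = _ := by ring

/-- Bi-Lipschitz maps of `K n` to spaces with the Radon-Nikodym property have large distortion. -/
theorem distortion {n : ℕ} {f : K n → V} {C : ℝ≥0} {c₀ : ℝ} (hc₀ : 0 ≤ c₀)
    (hf : ∀ p q, ‖f p - f q‖ ≤ C * dist p q)
    (hg : ∀ p q, c₀ * dist p q ≤ ‖f p - f q‖)
    (hV : ∀ g : ℝ → V, (∃ L : ℝ≥0, LipschitzWith L g) → ∀ᵐ t, DifferentiableAt ℝ g t) :
    c₀ ≤ 2 * C / (n + 2) := by
  have hd : ∀ c, ∀ᵐ t, DifferentiableAt ℝ (curve f c) t := fun c => hV _ ⟨C, curve_lip hf c⟩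
  set μ : Measure (ℕ → ZMod 2) := Measure.addHaar with hμ
  set ρ : Measure ℝ := volume.restrict (Ioc 0 1) with hρ
  have : IsFiniteMeasure ρ := ⟨by rw [hρ]; simp⟩
  have hFi : Integrable (vder f) (μ.prod ρ) :=
    Integrable.of_bound (vder_stronglyMeasurable hf).aestronglyMeasurable (C : ℝ)
      (Eventually.of_forall (vder_bound hf))
  have hlim := translation μ ρ hFi ee_tendsto
  have hle : ∀ i, (c₀ - 2 * C / (n + 2)) * μ.real univ ≤
      ∫ p, ‖vder f p - vder f (p.1 + ee i, p.2)‖ ∂(μ.prod ρ) := by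
    intro i
    have hmp : MeasurePreserving (fun p : (ℕ → ZMod 2) × ℝ => (p.1 + ee i, p.2))
        (μ.prod ρ) (μ.prod ρ) := (measurePreserving_add_right μ (ee i)).prod (MeasurePreserving.id ρ)
    have hint : Integrable (fun p : (ℕ → ZMod 2) × ℝ => ‖vder f p - vder f (p.1 + ee i, p.2)‖)
        (μ.prod ρ) := (hFi.sub (hmp.integrable_comp_of_integrable hFi)).norm
    rw [integral_prod _ hint]
    have h1 : (c₀ - 2 * C / (n + 2)) * μ.real univ =
        ∫ _ : ℕ → ZMod 2, (c₀ - 2 * C / (n + 2)) ∂μ := by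
      rw [integral_const, smul_eq_mul, mul_comm]
    rw [h1]
    refine integral_mono (integrable_const _) hint.integral_prod_left fun c => ?_
    have h2 := unit_interval hc₀ hf hg hd c i
    rw [intervalIntegral.integral_of_le zero_le_one] at h2
    exact h2
  have hge := ge_of_tendsto' hlim hle
  have hpos : 0 < μ.real univ := by
    rw [measureReal_def]
    refine ENNReal.toReal_pos ?_ (measure_ne_top μ _)
    exact (isOpen_univ.measure_pos μ univ_nonempty).ne'
  have := nonpos_of_mul_nonpos_left hge hpos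
  linarith

end

end Pool.Agent.Q89.RN
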